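import Pool.Agent.H121.SH.IfM

/-! Project SH of helper121, part M: S_twoA from S_two (helper643). -/

set_option autoImplicit false

open scoped ENNReal Topology
open MeasureTheory Set Filter

namespace Pool.Agent.H643.SH

open Pool.Agent.H121.SH (Dn Sn k1 S_two S_twoA)

/-- a sub-probability measure with density at most `D` is bounded by a probability measure with density
at most `D + η` -/
theorem exists_prob {D η : ℝ} (hD : 0 < D) (hη : 0 < η) (μ : Measure ℝ) (hμ : Sn D μ) :
    ∃ ν : Measure ℝ, IsProbabilityMeasure ν ∧ Dn (D + η) ν ∧ μ ≤ ν := by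
  obtain ⟨h1, h2⟩ := hμ
  set c : ℝ≥0∞ := (1 - μ univ) * ENNReal.ofReal η with hc
  refine ⟨μ + c • (volume.restrict (Icc (0 : ℝ) (1 / η))), ⟨?_⟩, ?_, Measure.le_add_right le_rfl⟩
  · have e : c * volume (Icc (0 : ℝ) (1 / η)) = 1 - μ univ := by
      rw [Real.volume_Icc, sub_zero, hc, mul_assoc, ← ENNReal.ofReal_mul hη.le,
        mul_one_div_cancel hη.ne', ENNReal.ofReal_one, mul_one]
    rw [Measure.add_apply, Measure.smul_apply, Measure.restrict_apply_univ, smul_eq_mul, e]
    exact add_tsub_cancel_of_le h1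
  · intro A hA
    rw [Measure.add_apply, Measure.smul_apply, smul_eq_mul, ENNReal.ofReal_add hD.le hη.le,
      add_mul]
    refine add_le_add (h2 A hA) ?_
    refine mul_le_mul' ?_ (Measure.restrict_apply_le _ _)
    calc c ≤ 1 * ENNReal.ofReal η := mul_le_mul' tsub_le_self le_rfl
      _ = ENNReal.ofReal η := one_mul _

theorem twoA (h : S_two) : S_twoA := by
  intro D lam h' hD hlam hh0 hh μ hμ α β b
  have hlim : Tendsto (fun η : ℝ => ENNReal.ofReal (k1 (D + η) lam h')) (𝓝[>] 0)
      (𝓝 (ENNReal.ofReal (k1 D lam h'))) := by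
    refine (ENNReal.continuous_ofReal.tendsto _).comp ?_
    have hc : Continuous fun η : ℝ => k1 (D + η) lam h' := by
      unfold k1
      fun_prop
    have := (hc.tendsto 0).mono_left (nhdsWithin_le_nhds (s := Ioi (0 : ℝ)))
    rw [add_zero] at this
    exact this
  refine ge_of_tendsto hlim ?_
  filter_upwards [self_mem_nhdsWithin] with η hη
  obtain ⟨ν, hν, hDν, hle⟩ := exists_prob hD hη μ hμ
  have hη' : 0 < η := hη
  refine le_trans ?_ (h (D + η) lam h' (by linarith) hlam hh0 hh ν hDν α β b)
  refine lintegral_mono' (Measure.restrict_mono le_rfl hle) fun w => ?_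
  exact lintegral_mono' hle le_rfl

end Pool.Agent.H643.SH
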